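import Mathlib
import Pool.Agent.H23.GeoPerB

set_option autoImplicit false

namespace Pool.Agent.Results.MP_7b7a44_co.Counter
open Pool.Agent.H23.GeoPer

theorem result : ¬ ∀ (V : Type) [Fintype V] [DecidableEq V] (G : SimpleGraph V), ThreeConn G →
    ∃ l : Sym2 V → ℝ, (∀ e ∈ G.edgeSet, 0 < l e) ∧
      ∀ (v : V) (C : G.Walk v v), C.IsCycle → Geodesic l C → Peripheral C := by
  intro h
  obtain ⟨l, hl, hC⟩ := h (Fin 8) GG GG3
  exact main l hl hC

end Pool.Agent.Results.MP_7b7a44_co.Counter
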